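import Mathlib

/-!
# Anticoncentration of polynomials on grids, part 2: counting along lines

A subset of a box which has at most `K` points on every line of a fixed direction `h` is small.
-/

set_option autoImplicit false

namespace Pool.Agent.Helper22.PL

open Finset

variable {ι : Type*} [Fintype ι] [DecidableEq ι]

lemma card_coord_lt {R : ℕ} (e : ι) (a : ℕ) :
    (univ.filter fun ν : ι → Fin R => ((ν e : Fin R) : ℕ) < a).card * R ≤
      a * R ^ Fintype.card ι := by
  classical
  have h1 : (univ.filter fun ν : ι → Fin R => ((ν e : Fin R) : ℕ) < a) =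
      Fintype.piFinset (fun i => if i = e then (univ.filter fun x : Fin R => (x : ℕ) < a)
        else univ) := by
    ext ν
    rw [mem_filter, Fintype.mem_piFinset]
    constructor
    · intro h i
      by_cases hi : i = e
      · subst hi; simp [h.2]
      · simp [hi]
    · intro h
      have := h e
      simp only [if_true, mem_filter, mem_univ, true_and] at this
      exact ⟨mem_univ _, this⟩
  have h2 : (univ.filter fun x : Fin R => (x : ℕ) < a).card ≤ a := by
    calc (univ.filter fun x : Fin R => (x : ℕ) < a).card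
        ≤ (range a).card := card_le_card_of_injOn (fun x => (x : ℕ))
          (fun x hx => by
            rw [mem_coe, mem_filter] at hx
            exact mem_coe.2 (mem_range.2 hx.2))
          (fun x _ y _ hxy => Fin.ext hxy)
      _ = a := card_range a
  rw [h1, Fintype.card_piFinset]
  have h3 : ∏ i, ((if i = e then (univ.filter fun x : Fin R => (x : ℕ) < a) else univ) :
      Finset (Fin R)).card * (if i = e then R else 1) =
      (∏ i, ((if i = e then (univ.filter fun x : Fin R => (x : ℕ) < a) else univ) :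
      Finset (Fin R)).card) * R := by
    rw [prod_mul_distrib, prod_ite_eq']
    simp
  rw [← h3]
  calc ∏ i, ((if i = e then (univ.filter fun x : Fin R => (x : ℕ) < a) else univ) :
      Finset (Fin R)).card * (if i = e then R else 1)
      ≤ ∏ i, ((if i = e then a else 1) * R) := by
        refine prod_le_prod' fun i _ => ?_
        by_cases hi : i = e
        · simp only [hi, if_true]
          exact Nat.mul_le_mul_right _ h2
        · simp [hi]
    _ = a * R ^ Fintype.card ι := by
        rw [prod_mul_distrib, prod_const, card_univ, prod_ite_eq']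
        simp

lemma count_lines {R K : ℕ} (h : ι → ℕ) (e0 : ι) (h0 : 1 ≤ h e0) (B : Finset (ι → Fin R))
    (hB : ∀ (c : ι → ℤ) (T : Finset ℤ),
      (∀ t ∈ T, ∃ ν ∈ B, ∀ e, (((ν e : Fin R) : ℕ) : ℤ) = c e + t * h e) → T.card ≤ K) :
    B.card * R ≤ K * ((∑ e, h e) * R ^ Fintype.card ι) := by
  classical
  let Z : Finset ι := univ.filter fun e => 1 ≤ h e
  have hZ : Z.Nonempty := ⟨e0, by simp [Z, h0]⟩
  let q : (ι → Fin R) → ℕ := fun ν => Z.inf' hZ fun e => ((ν e : Fin R) : ℕ) / h e
  have hqle : ∀ ν e, q ν * h e ≤ ((ν e : Fin R) : ℕ) := by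
    intro ν e
    by_cases he : 1 ≤ h e
    · have h1 : q ν ≤ ((ν e : Fin R) : ℕ) / h e :=
        inf'_le (fun e => ((ν e : Fin R) : ℕ) / h e) (by simp [Z, he])
      exact (Nat.mul_le_mul_right _ h1).trans (Nat.div_mul_le_self _ _)
    · have : h e = 0 := by omega
      simp [this]
  let Φ : (ι → Fin R) → (ι → Fin R) := fun ν e =>
    ⟨((ν e : Fin R) : ℕ) - q ν * h e, lt_of_le_of_lt (Nat.sub_le _ _) (ν e).2⟩
  let S : Finset (ι → Fin R) := univ.biUnion fun e =>
    univ.filter fun ν : ι → Fin R => ((ν e : Fin R) : ℕ) < h e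
  have hmaps : ∀ ν ∈ B, Φ ν ∈ S := by
    intro ν _
    obtain ⟨e, he, hqe⟩ := exists_mem_eq_inf' hZ fun e => ((ν e : Fin R) : ℕ) / h e
    rw [mem_biUnion]
    refine ⟨e, mem_univ _, ?_⟩
    rw [mem_filter]
    refine ⟨mem_univ _, ?_⟩
    have he1 : 1 ≤ h e := by
      rw [mem_filter] at he
      exact he.2
    change ((ν e : Fin R) : ℕ) - q ν * h e < h e
    have h1 : q ν = ((ν e : Fin R) : ℕ) / h e := hqe
    rw [h1, mul_comm]
    have h2 := Nat.div_add_mod ((ν e : Fin R) : ℕ) (h e)
    have h3 := Nat.mod_lt ((ν e : Fin R) : ℕ) he1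
    omega
  have hcard := card_le_mul_card_image_of_maps_to hmaps K (fun c _ => by
    -- the fibre over `c`
    have hval : ∀ ν, Φ ν = c → ∀ e, (((ν e : Fin R) : ℕ) : ℤ) =
        (((c e : Fin R) : ℕ) : ℤ) + (q ν : ℤ) * h e := by
      intro ν hν e
      have h1 : ((Φ ν e : Fin R) : ℕ) = ((c e : Fin R) : ℕ) := by rw [hν]
      have h2 : ((ν e : Fin R) : ℕ) - q ν * h e = ((c e : Fin R) : ℕ) := h1
      have h3 := hqle ν e
      have h4 : ((ν e : Fin R) : ℕ) = ((c e : Fin R) : ℕ) + q ν * h e := by omega
      exact_mod_cast h4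
    have hinj : Set.InjOn (fun ν => (q ν : ℤ))
        (↑(B.filter fun ν => Φ ν = c) : Set (ι → Fin R)) := by
      intro ν hν ν' hν' hqq
      rw [mem_coe, mem_filter] at hν hν'
      funext e
      have h1 := hval ν hν.2 e
      have h2 := hval ν' hν'.2 e
      simp only at hqq
      rw [hqq] at h1
      have h3 : (((ν e : Fin R) : ℕ) : ℤ) = (((ν' e : Fin R) : ℕ) : ℤ) := by rw [h1, h2]
      exact Fin.ext (by exact_mod_cast h3)
    rw [← card_image_of_injOn hinj]
    refine hB (fun e => (((c e : Fin R) : ℕ) : ℤ)) _ ?_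
    intro t ht
    rw [mem_image] at ht
    obtain ⟨ν, hν, rfl⟩ := ht
    rw [mem_filter] at hν
    exact ⟨ν, hν.1, hval ν hν.2⟩)
  have hS : S.card * R ≤ (∑ e, h e) * R ^ Fintype.card ι := by
    calc S.card * R
        ≤ (∑ e, (univ.filter fun ν : ι → Fin R => ((ν e : Fin R) : ℕ) < h e).card) * R :=
          Nat.mul_le_mul_right _ card_biUnion_le
      _ = ∑ e, (univ.filter fun ν : ι → Fin R => ((ν e : Fin R) : ℕ) < h e).card * R := by
          rw [sum_mul]
      _ ≤ ∑ e, h e * R ^ Fintype.card ι := sum_le_sum fun e _ => card_coord_lt e (h e)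
      _ = _ := by rw [sum_mul]
  calc B.card * R ≤ K * S.card * R := Nat.mul_le_mul_right _ hcard
    _ = K * (S.card * R) := by ring
    _ ≤ _ := Nat.mul_le_mul_left _ hS

end Pool.Agent.Helper22.PL
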