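import Mathlib

/-!
# Anticoncentration of polynomials on grids, part 3: a good direction

A homogeneous polynomial with a coefficient `a` at the monomial `m` of degree `n` takes a value of
size at least `|a| / 2 ^ n` at some integer point `0 ≤ h ≤ m`.
-/

set_option autoImplicit false

namespace Pool.Agent.Helper22.PL

open Finset

lemma alt_sum_lt {a b : ℕ} (h : b < a) :
    ∑ k ∈ range (a + 1), ((-1 : ℝ) ^ (a - k) * a.choose k) * (k : ℝ) ^ b = 0 := by
  have h1 := fwdDiff_iter_eq_sum_shift (M := ℝ) (G := ℝ) (h := 1) (fun r => r ^ b) a 0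
  rw [fwdDiff_iter_pow_eq_zero_of_lt h] at h1
  simp only [Pi.zero_apply, nsmul_eq_mul, mul_one, zero_add, zsmul_eq_mul] at h1
  rw [h1]
  refine sum_congr rfl fun k _ => ?_
  push_cast
  ring

lemma alt_sum_eq (a : ℕ) :
    ∑ k ∈ range (a + 1), ((-1 : ℝ) ^ (a - k) * a.choose k) * (k : ℝ) ^ a = a.factorial := by
  have h1 := fwdDiff_iter_eq_sum_shift (M := ℝ) (G := ℝ) (h := 1) (fun r => r ^ a) a 0
  rw [fwdDiff_iter_eq_factorial] at h1
  simp only [nsmul_eq_mul, mul_one, zero_add, zsmul_eq_mul] at h1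
  have h2 : ((a.factorial : ℝ → ℝ) : ℝ → ℝ) 0 = (a.factorial : ℝ) := by simp
  rw [← h2, h1]
  refine sum_congr rfl fun k _ => ?_
  push_cast
  ring

variable {ι : Type*} [Fintype ι] [DecidableEq ι]

/-- The values at the integer points below `m` determine the coefficient of `m`. -/
lemma exists_direction (s : Finset (ι →₀ ℕ)) (c : (ι →₀ ℕ) → ℝ) (m : ι →₀ ℕ) (hm : m ∈ s)
    (hs : ∀ m' ∈ s, ∑ e, m' e = ∑ e, m e) :
    ∃ h : ι → ℕ, (∀ e, h e ≤ m e) ∧
      |c m| ≤ 2 ^ (∑ e, m e) * |∑ m' ∈ s, c m' * ∏ e, ((h e : ℕ) : ℝ) ^ m' e| := by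
  classical
  by_contra hcon
  push Not at hcon
  let w : (ι → ℕ) → ℝ := fun k => ∏ e, ((-1 : ℝ) ^ (m e - k e) * (m e).choose (k e))
  let q : (ι → ℕ) → ℝ := fun k => ∑ m' ∈ s, c m' * ∏ e, ((k e : ℕ) : ℝ) ^ m' e
  have hid : ∑ k ∈ Fintype.piFinset (fun e => range (m e + 1)), w k * q k =
      c m * ∏ e, ((m e).factorial : ℝ) := by
    have h1 : ∀ m' : ι →₀ ℕ, ∑ k ∈ Fintype.piFinset (fun e => range (m e + 1)),
        w k * ∏ e, ((k e : ℕ) : ℝ) ^ m' e =
        ∏ e, ∑ k ∈ range (m e + 1), ((-1 : ℝ) ^ (m e - k) * (m e).choose k) * (k : ℝ) ^ m' e := by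
      intro m'
      rw [prod_univ_sum]
      refine sum_congr rfl fun k _ => ?_
      rw [← prod_mul_distrib]
    calc ∑ k ∈ Fintype.piFinset (fun e => range (m e + 1)), w k * q k
        = ∑ m' ∈ s, c m' * ∑ k ∈ Fintype.piFinset (fun e => range (m e + 1)),
            w k * ∏ e, ((k e : ℕ) : ℝ) ^ m' e := by
          simp only [q, mul_sum]
          rw [sum_comm]
          refine sum_congr rfl fun m' _ => sum_congr rfl fun k _ => ?_
          ring
      _ = c m * ∏ e, ((m e).factorial : ℝ) := by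
          rw [sum_eq_single_of_mem m hm]
          · rw [h1]
            congr 1
            exact prod_congr rfl fun e _ => alt_sum_eq (m e)
          · intro m' hm' hne
            rw [h1]
            obtain ⟨e, he⟩ : ∃ e, m' e < m e := by
              by_contra hc
              push Not at hc
              have h2 := (sum_eq_sum_iff_of_le (s := univ) (f := fun e => m e)
                (g := fun e => m' e) fun e _ => hc e).1 (hs m' hm').symm
              exact hne (Finsupp.ext fun e => (h2 e (mem_univ e)).symm)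
            rw [prod_eq_zero (mem_univ e) (alt_sum_lt he), mul_zero]
  have hw : ∑ k ∈ Fintype.piFinset (fun e => range (m e + 1)), |w k| = 2 ^ (∑ e, m e) := by
    have h1 : ∀ k : ι → ℕ, |w k| = ∏ e, ((m e).choose (k e) : ℝ) := by
      intro k
      simp only [w]
      rw [abs_prod]
      refine prod_congr rfl fun e _ => ?_
      rw [abs_mul, abs_pow, abs_neg, abs_one, one_pow, one_mul, Nat.abs_cast]
    simp only [h1]
    have h2 := prod_univ_sum (fun e => range (m e + 1)) (fun e k => ((m e).choose k : ℝ))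
    rw [← h2, ← prod_pow_eq_pow_sum]
    refine prod_congr rfl fun e _ => ?_
    exact_mod_cast Nat.sum_range_choose (m e)
  have hfac : |c m| ≤ |c m * ∏ e, ((m e).factorial : ℝ)| := by
    rw [abs_mul]
    refine le_mul_of_one_le_right (abs_nonneg _) ?_
    rw [abs_of_nonneg (prod_nonneg fun e _ => by positivity)]
    have : 1 ≤ ∏ e, (m e).factorial := Nat.one_le_iff_ne_zero.2
      (prod_ne_zero_iff.2 fun e _ => (Nat.factorial_ne_zero _))
    exact_mod_cast this
  have hne : (Fintype.piFinset (fun e => range (m e + 1))).Nonempty :=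
    ⟨fun _ => 0, by simp [Fintype.mem_piFinset]⟩
  have hwpos : ∃ k ∈ Fintype.piFinset (fun e => range (m e + 1)), 0 < |w k| := by
    by_contra hc
    push Not at hc
    have h2 : ∑ k ∈ Fintype.piFinset (fun e => range (m e + 1)), |w k| ≤ 0 :=
      sum_nonpos hc
    rw [hw] at h2
    have : (0 : ℝ) < 2 ^ (∑ e, m e) := by positivity
    linarith
  have hlt : ∑ k ∈ Fintype.piFinset (fun e => range (m e + 1)), |w k| * (2 ^ (∑ e, m e) * |q k|) <
      ∑ k ∈ Fintype.piFinset (fun e => range (m e + 1)), |w k| * |c m| := by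
    apply sum_lt_sum
    · intro k hk
      rw [Fintype.mem_piFinset] at hk
      refine mul_le_mul_of_nonneg_left (hcon k fun e => ?_).le (abs_nonneg _)
      have := hk e
      rw [mem_range] at this
      omega
    · obtain ⟨k, hk, hk2⟩ := hwpos
      refine ⟨k, hk, ?_⟩
      rw [Fintype.mem_piFinset] at hk
      refine mul_lt_mul_of_pos_left (hcon k fun e => ?_) hk2
      have := hk e
      rw [mem_range] at this
      omega
  have h3 : ∑ k ∈ Fintype.piFinset (fun e => range (m e + 1)), |w k| * |c m| =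
      2 ^ (∑ e, m e) * |c m| := by
    rw [← sum_mul, hw]
  have h4 : ∑ k ∈ Fintype.piFinset (fun e => range (m e + 1)),
      |w k| * (2 ^ (∑ e, m e) * |q k|) =
      2 ^ (∑ e, m e) * ∑ k ∈ Fintype.piFinset (fun e => range (m e + 1)), |w k * q k| := by
    rw [mul_sum]
    refine sum_congr rfl fun k _ => ?_
    rw [abs_mul]
    ring
  rw [h3, h4] at hlt
  have h5 := lt_of_mul_lt_mul_left hlt (by positivity)
  have h6 : |c m| ≤ ∑ k ∈ Fintype.piFinset (fun e => range (m e + 1)), |w k * q k| := by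
    calc |c m| ≤ |c m * ∏ e, ((m e).factorial : ℝ)| := hfac
      _ = |∑ k ∈ Fintype.piFinset (fun e => range (m e + 1)), w k * q k| := by rw [hid]
      _ ≤ _ := abs_sum_le_sum_abs _ _
  linarith

end Pool.Agent.Helper22.PL
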