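import Mathlib

/-!
# Anticoncentration of polynomials on grids, part 4: restriction to a line
-/

set_option autoImplicit false

namespace Pool.Agent.Helper22.PL

open Finset

variable {ι : Type*} [Fintype ι]

/-- The restriction of the polynomial with coefficients `a m`, `m ∈ S`, to the line `q + t h`, a
polynomial in `t`. -/
noncomputable def lineP (S : Finset (ι →₀ ℕ)) (a : (ι →₀ ℕ) → ℝ) (q h : ι → ℝ) :
    Polynomial ℝ :=
  ∑ m ∈ S, Polynomial.C (a m) *
    ∏ e, (Polynomial.C (q e) + Polynomial.C (h e) * Polynomial.X) ^ m e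

lemma lineP_eval (S : Finset (ι →₀ ℕ)) (a : (ι →₀ ℕ) → ℝ) (q h : ι → ℝ) (t : ℝ) :
    (lineP S a q h).eval t = ∑ m ∈ S, a m * ∏ e, (q e + h e * t) ^ m e := by
  unfold lineP
  rw [Polynomial.eval_finsetSum]
  refine sum_congr rfl fun m _ => ?_
  rw [Polynomial.eval_mul, Polynomial.eval_C, Polynomial.eval_prod]
  simp

lemma lineP_taylor (S : Finset (ι →₀ ℕ)) (a : (ι →₀ ℕ) → ℝ) (q h : ι → ℝ) (ξ : ℝ) :
    Polynomial.taylor ξ (lineP S a q h) = lineP S a (fun e => q e + h e * ξ) h := by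
  rw [Polynomial.taylor_apply]
  unfold lineP
  rw [Polynomial.sum_comp]
  refine sum_congr rfl fun m _ => ?_
  rw [Polynomial.mul_comp, Polynomial.C_comp, Polynomial.prod_comp]
  congr 1
  refine prod_congr rfl fun e _ => ?_
  rw [Polynomial.pow_comp, Polynomial.add_comp, Polynomial.mul_comp, Polynomial.C_comp,
    Polynomial.C_comp, Polynomial.X_comp, Polynomial.C_add, Polynomial.C_mul]
  ring

/-- The `n`-th derivative on the line, by the coefficient of `t ^ n` after a shift. -/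
lemma lineP_deriv (S : Finset (ι →₀ ℕ)) (a : (ι →₀ ℕ) → ℝ) (q h : ι → ℝ) (ξ : ℝ) (n : ℕ) :
    ((Polynomial.derivative^[n]) (lineP S a q h)).eval ξ =
      n.factorial * (lineP S a (fun e => q e + h e * ξ) h).coeff n := by
  rw [← lineP_taylor, Polynomial.taylor_coeff]
  have h1 := Polynomial.factorial_smul_hasseDeriv (R := ℝ) (k := n)
  have h2 := congrFun h1 (lineP S a q h)
  rw [← h2]
  simp

/-! ## Majorants -/

lemma maj_mul {P P' Q Q' : Polynomial ℝ} (h1 : ∀ k, |P.coeff k| ≤ Q.coeff k)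
    (h2 : ∀ k, |P'.coeff k| ≤ Q'.coeff k) : ∀ k, |(P * P').coeff k| ≤ (Q * Q').coeff k := by
  intro k
  rw [Polynomial.coeff_mul, Polynomial.coeff_mul]
  calc |∑ x ∈ antidiagonal k, P.coeff x.1 * P'.coeff x.2|
      ≤ ∑ x ∈ antidiagonal k, |P.coeff x.1 * P'.coeff x.2| := abs_sum_le_sum_abs _ _
    _ ≤ ∑ x ∈ antidiagonal k, Q.coeff x.1 * Q'.coeff x.2 := by
        refine sum_le_sum fun x _ => ?_
        rw [abs_mul]
        exact mul_le_mul (h1 _) (h2 _) (abs_nonneg _) ((abs_nonneg _).trans (h1 _))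

lemma maj_pow {P Q : Polynomial ℝ} (h1 : ∀ k, |P.coeff k| ≤ Q.coeff k) (a : ℕ) :
    ∀ k, |(P ^ a).coeff k| ≤ (Q ^ a).coeff k := by
  induction a with
  | zero =>
    intro k
    simp only [pow_zero, Polynomial.coeff_one]
    split_ifs <;> simp
  | succ a ih =>
    rw [pow_succ, pow_succ]
    exact maj_mul ih h1

lemma maj_prod {κ : Type*} [DecidableEq κ] (s : Finset κ) {P Q : κ → Polynomial ℝ}
    (h1 : ∀ e, ∀ k, |(P e).coeff k| ≤ (Q e).coeff k) :
    ∀ k, |(∏ e ∈ s, P e).coeff k| ≤ (∏ e ∈ s, Q e).coeff k := by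
  induction s using Finset.induction_on with
  | empty =>
    intro k
    simp only [prod_empty, Polynomial.coeff_one]
    split_ifs <;> simp
  | insert e s he ih =>
    rw [prod_insert he, prod_insert he]
    exact maj_mul (h1 e) ih

lemma coeff_affine_pow (V D : ℝ) (N n : ℕ) (hn : n ≤ N) :
    ((Polynomial.C V + Polynomial.C D * Polynomial.X) ^ N : Polynomial ℝ).coeff n =
      D ^ n * V ^ (N - n) * N.choose n := by
  rw [add_comm, add_pow, Polynomial.finsetSum_coeff]
  rw [sum_eq_single_of_mem n (by rw [mem_range]; omega)]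
  · rw [mul_pow, ← Polynomial.C_pow, ← Polynomial.C_pow, mul_assoc, mul_assoc,
      Polynomial.coeff_C_mul, ← mul_assoc, mul_comm (Polynomial.X ^ n), mul_assoc,
      Polynomial.coeff_C_mul]
    have h1 : (Polynomial.X ^ n * ((N.choose n : ℕ) : Polynomial ℝ)).coeff n =
        (N.choose n : ℝ) := by
      rw [mul_comm, ← Polynomial.C_eq_natCast, Polynomial.coeff_C_mul, Polynomial.coeff_X_pow]
      simp
    rw [h1]
    ring
  · intro k _ hk
    have h1 : ((Polynomial.C D * Polynomial.X) ^ k * Polynomial.C V ^ (N - k) *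
        ((N.choose k : ℕ) : Polynomial ℝ)) =
        Polynomial.C (D ^ k * V ^ (N - k) * N.choose k) * Polynomial.X ^ k := by
      rw [mul_pow, Polynomial.C_mul, Polynomial.C_mul, Polynomial.C_pow, Polynomial.C_pow,
        Polynomial.C_eq_natCast]
      ring
    rw [h1, Polynomial.coeff_C_mul, Polynomial.coeff_X_pow]
    simp [hk.symm]

/-- The coefficient of `t ^ n` of a monomial of degree at least `n`. -/
lemma mon_gt {V D : ℝ} (hV : 0 ≤ V) (hD : 0 ≤ D) (q h : ι → ℝ) (hq : ∀ e, |q e| ≤ V)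
    (hh : ∀ e, |h e| ≤ D) (m : ι →₀ ℕ) (n : ℕ) (hn : n ≤ ∑ e, m e) :
    |(∏ e, (Polynomial.C (q e) + Polynomial.C (h e) * Polynomial.X) ^ m e).coeff n| ≤
      2 ^ (∑ e, m e) * D ^ n * V ^ (∑ e, m e - n) := by
  classical
  have h1 : ∀ e k, |(Polynomial.C (q e) + Polynomial.C (h e) * Polynomial.X).coeff k| ≤
      (Polynomial.C V + Polynomial.C D * Polynomial.X).coeff k := by
    intro e k
    rcases k with _ | _ | k
    · simpa using hq e
    · simpa [Polynomial.coeff_C] using hh e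
    · simp [Polynomial.coeff_X, Polynomial.coeff_C]
  have h2 := maj_prod univ (P := fun e => (Polynomial.C (q e) +
    Polynomial.C (h e) * Polynomial.X) ^ m e) (Q := fun e => (Polynomial.C V +
    Polynomial.C D * Polynomial.X) ^ m e) (fun e => maj_pow (h1 e) (m e)) n
  refine h2.trans ?_
  rw [prod_pow_eq_pow_sum, coeff_affine_pow V D _ n hn]
  have h3 : ((∑ e, m e).choose n : ℝ) ≤ 2 ^ (∑ e, m e) := by
    exact_mod_cast Nat.choose_le_two_pow _ _
  calc D ^ n * V ^ (∑ e, m e - n) * ((∑ e, m e).choose n : ℝ)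
      ≤ D ^ n * V ^ (∑ e, m e - n) * 2 ^ (∑ e, m e) :=
        mul_le_mul_of_nonneg_left h3 (by positivity)
    _ = 2 ^ (∑ e, m e) * D ^ n * V ^ (∑ e, m e - n) := by ring

/-- Degree and top coefficient of a monomial on a line. -/
lemma mon_top (q h : ι → ℝ) (m : ι →₀ ℕ) (s : Finset ι) :
    (∏ e ∈ s, (Polynomial.C (q e) + Polynomial.C (h e) * Polynomial.X) ^ m e).natDegree ≤
      ∑ e ∈ s, m e ∧
    (∏ e ∈ s, (Polynomial.C (q e) + Polynomial.C (h e) * Polynomial.X) ^ m e).coeff
      (∑ e ∈ s, m e) = ∏ e ∈ s, h e ^ m e := by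
  classical
  have hdeg : ∀ e, (Polynomial.C (q e) + Polynomial.C (h e) * Polynomial.X :
      Polynomial ℝ).natDegree ≤ 1 := by
    intro e
    refine (Polynomial.natDegree_add_le _ _).trans ?_
    rw [Polynomial.natDegree_C, max_le_iff]
    exact ⟨by omega, (Polynomial.natDegree_C_mul_le _ _).trans Polynomial.natDegree_X_le⟩
  have hpow : ∀ e, ((Polynomial.C (q e) + Polynomial.C (h e) * Polynomial.X :
      Polynomial ℝ) ^ m e).natDegree ≤ m e := by
    intro e
    refine Polynomial.natDegree_pow_le.trans ?_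
    calc m e * _ ≤ m e * 1 := Nat.mul_le_mul_left _ (hdeg e)
      _ = m e := mul_one _
  induction s using Finset.induction_on with
  | empty => simp
  | insert e s he ih =>
    rw [prod_insert he, sum_insert he, prod_insert he]
    refine ⟨(Polynomial.natDegree_mul_le).trans (Nat.add_le_add (hpow e) ih.1), ?_⟩
    rw [Polynomial.coeff_mul_add_eq_of_natDegree_le (hpow e) ih.1, ih.2]
    congr 1
    have h1 := Polynomial.coeff_pow_of_natDegree_le (hdeg e) (m := m e)
    rw [mul_one] at h1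
    rw [h1]
    simp [Polynomial.coeff_C]

lemma mon_lt (q h : ι → ℝ) (m : ι →₀ ℕ) (n : ℕ) (hn : ∑ e, m e < n) :
    (∏ e, (Polynomial.C (q e) + Polynomial.C (h e) * Polynomial.X) ^ m e).coeff n = 0 :=
  Polynomial.coeff_eq_zero_of_natDegree_lt (lt_of_le_of_lt (mon_top q h m univ).1 hn)

end Pool.Agent.Helper22.PL
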