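import Pool.Agent.Helper22.PL.Anti1
import Pool.Agent.Helper22.PL.Anti2
import Pool.Agent.Helper22.PL.Anti3
import Pool.Agent.Helper22.PL.Anti4

/-!
# Anticoncentration of real polynomials on grids

A real polynomial with a large coefficient is rarely small at the points of a box.
-/

set_option autoImplicit false

namespace Pool.Agent.Helper22.PL

open Finset

/-- The constant of the anticoncentration lemma. -/
def acC (d : ℕ) : ℕ := (d + 2) * 2 ^ (2 * d + 1) * d ^ d

lemma acC_ge (d n : ℕ) (hn : n ≤ d) : 2 ^ d * d ^ n * 2 ^ (n + 1) ≤ acC d := by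
  unfold acC
  have h1 : d ^ n ≤ d ^ d := by
    rcases Nat.eq_zero_or_pos d with h | h
    · subst h
      have : n = 0 := by omega
      subst this
      exact le_rfl
    · exact Nat.pow_le_pow_right h hn
  have h2 : 2 ^ d * 2 ^ (n + 1) ≤ 2 ^ (2 * d + 1) := by
    rw [← pow_add]
    exact Nat.pow_le_pow_right (by norm_num) (by omega)
  calc 2 ^ d * d ^ n * 2 ^ (n + 1) = (2 ^ d * 2 ^ (n + 1)) * d ^ n := by ring
    _ ≤ 2 ^ (2 * d + 1) * d ^ d := Nat.mul_le_mul h2 h1
    _ = 1 * (2 ^ (2 * d + 1) * d ^ d) := by ring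
    _ ≤ (d + 2) * (2 ^ (2 * d + 1) * d ^ d) := Nat.mul_le_mul_right _ (by omega)
    _ = (d + 2) * 2 ^ (2 * d + 1) * d ^ d := by ring

lemma dd_pos (d : ℕ) : 1 ≤ d ^ d := by
  rcases Nat.eq_zero_or_pos d with h | h
  · subst h; norm_num
  · exact Nat.one_le_pow _ _ h

lemma acC_gt (d n : ℕ) (hn : n ≤ d) : (n + 1) * 2 ^ (n + 1) < acC d := by
  unfold acC
  have h2 : 2 ^ (n + 1) ≤ 2 ^ (2 * d + 1) := Nat.pow_le_pow_right (by norm_num) (by omega)
  have h3 := dd_pos d
  calc (n + 1) * 2 ^ (n + 1) ≤ (n + 1) * 2 ^ (2 * d + 1) := Nat.mul_le_mul_left _ h2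
    _ < (d + 2) * 2 ^ (2 * d + 1) := Nat.mul_lt_mul_of_pos_right (by omega) (by positivity)
    _ = (d + 2) * 2 ^ (2 * d + 1) * 1 := by ring
    _ ≤ (d + 2) * 2 ^ (2 * d + 1) * d ^ d := Nat.mul_le_mul_left _ h3

lemma two_le_acC (d : ℕ) : 2 ≤ acC d := by
  have := acC_gt d 0 (by omega)
  simp at this
  omega

variable {ι : Type*} [Fintype ι] [DecidableEq ι]

/-- The coefficient of `t ^ n` on every line of direction `h` is not small, if `n` is the degree
at which the weighted coefficients are maximal. -/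
lemma coef_low {S : Finset (ι →₀ ℕ)} {a : (ι →₀ ℕ) → ℝ} {d n : ℕ} {B Λ A : ℝ} (hB : 1 ≤ B)
    (hd : ∀ m ∈ S, ∑ e, m e ≤ d) (hΛ : acC d * S.card * B ≤ Λ) (hcard : 1 ≤ S.card)
    (hmax : ∀ m ∈ S, |a m| * Λ ^ (∑ e, m e) ≤ A * Λ ^ n) (hn : n ≤ d) (hA : 0 ≤ A)
    (h : ι → ℕ) (hh : ∀ e, h e ≤ d)
    (hdir : A ≤ 2 ^ n * |∑ m ∈ S.filter fun m => ∑ e, m e = n,
      a m * ∏ e, ((h e : ℕ) : ℝ) ^ m e|)
    (q : ι → ℝ) (hq : ∀ e, |q e| ≤ B) :
    A ≤ 2 ^ (n + 1) * |(lineP S a q fun e => (h e : ℝ)).coeff n| := by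
  have hacC : (2 : ℝ) ≤ acC d := by exact_mod_cast two_le_acC d
  have hcard' : (1 : ℝ) ≤ S.card := by exact_mod_cast hcard
  have hΛ1 : 1 ≤ Λ := by
    calc (1 : ℝ) ≤ 2 * 1 * 1 := by norm_num
      _ ≤ acC d * S.card * B := by gcongr
      _ ≤ Λ := hΛ
  have hΛ0 : 0 < Λ := by linarith
  -- split the coefficient
  let c : (ι →₀ ℕ) → ℝ := fun m =>
    (∏ e, (Polynomial.C (q e) + Polynomial.C ((h e : ℕ) : ℝ) * Polynomial.X) ^ m e).coeff n
  have hco : (lineP S a q fun e => (h e : ℝ)).coeff n = ∑ m ∈ S, a m * c m := by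
    unfold lineP
    rw [Polynomial.finsetSum_coeff]
    refine sum_congr rfl fun m _ => ?_
    rw [Polynomial.coeff_C_mul]
  have hsplit : ∑ m ∈ S, a m * c m =
      (∑ m ∈ S.filter fun m => ∑ e, m e = n, a m * ∏ e, ((h e : ℕ) : ℝ) ^ m e) +
      ∑ m ∈ S.filter fun m => ¬ ∑ e, m e = n, a m * c m := by
    rw [← sum_filter_add_sum_filter_not S (fun m => ∑ e, m e = n)]
    congr 1
    refine sum_congr rfl fun m hm => ?_
    rw [mem_filter] at hm
    have h1 := (mon_top q (fun e => ((h e : ℕ) : ℝ)) m univ).2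
    rw [hm.2] at h1
    simp only [c]
    rw [h1]
  have hrest : |∑ m ∈ S.filter fun m => ¬ ∑ e, m e = n, a m * c m| ≤ A / 2 ^ (n + 1) := by
    have hterm : ∀ m ∈ S.filter (fun m => ¬ ∑ e, m e = n), |a m * c m| ≤
        A / 2 ^ (n + 1) / S.card := by
      intro m hm
      rw [mem_filter] at hm
      rcases lt_or_gt_of_ne hm.2 with hlt | hgt
      · have h1 : c m = 0 := mon_lt q (fun e => ((h e : ℕ) : ℝ)) m n hlt
        rw [h1, mul_zero, abs_zero]
        positivity
      · have h1 : |c m| ≤ 2 ^ (∑ e, m e) * (d : ℝ) ^ n * B ^ (∑ e, m e - n) :=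
          mon_gt (by linarith) (by positivity) q (fun e => ((h e : ℕ) : ℝ)) hq
            (fun e => by
              rw [Nat.abs_cast]
              exact_mod_cast hh e) m n hgt.le
        have h2 := hmax m hm.1
        obtain ⟨k, hk⟩ : ∃ k, ∑ e, m e = n + 1 + k := ⟨∑ e, m e - n - 1, by omega⟩
        have h3 : ∑ e, m e - n = k + 1 := by omega
        rw [h3] at h1
        have h4 : |a m| * Λ ^ (k + 1) ≤ A := by
          have h5 : |a m| * Λ ^ (k + 1) * Λ ^ n ≤ A * Λ ^ n := by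
            calc |a m| * Λ ^ (k + 1) * Λ ^ n = |a m| * Λ ^ (∑ e, m e) := by
                  rw [hk]; ring
              _ ≤ A * Λ ^ n := h2
          exact le_of_mul_le_mul_right h5 (by positivity)
        have h6 : (2 : ℝ) ^ (∑ e, m e) ≤ 2 ^ d :=
          pow_le_pow_right₀ (by norm_num) (hd m hm.1)
        have h7 : (2 : ℝ) ^ d * (d : ℝ) ^ n * 2 ^ (n + 1) ≤ acC d := by
          exact_mod_cast acC_ge d n hn
        have h8 : B ^ (k + 1) * (2 ^ d * (d : ℝ) ^ n * 2 ^ (n + 1) * S.card) ≤ Λ ^ (k + 1) := by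
          calc B ^ (k + 1) * (2 ^ d * (d : ℝ) ^ n * 2 ^ (n + 1) * S.card)
              ≤ B ^ (k + 1) * (acC d * S.card) := by gcongr
            _ ≤ B ^ (k + 1) * (acC d * S.card) ^ (k + 1) := by
                refine mul_le_mul_of_nonneg_left ?_ (by positivity)
                refine le_self_pow₀ ?_ (by omega)
                calc (1 : ℝ) ≤ 2 * 1 := by norm_num
                  _ ≤ acC d * S.card := by gcongr
            _ = (acC d * S.card * B) ^ (k + 1) := by rw [← mul_pow]; ring_nf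
            _ ≤ Λ ^ (k + 1) := pow_le_pow_left₀ (by positivity) hΛ _
        rw [le_div_iff₀ (by positivity), le_div_iff₀ (by positivity), abs_mul]
        calc |a m| * |c m| * S.card * 2 ^ (n + 1)
            ≤ |a m| * (2 ^ (∑ e, m e) * (d : ℝ) ^ n * B ^ (k + 1)) * S.card * 2 ^ (n + 1) := by
              gcongr
          _ ≤ |a m| * (2 ^ d * (d : ℝ) ^ n * B ^ (k + 1)) * S.card * 2 ^ (n + 1) := by
              gcongr
          _ = |a m| * (B ^ (k + 1) * (2 ^ d * (d : ℝ) ^ n * 2 ^ (n + 1) * S.card)) := by ring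
          _ ≤ |a m| * Λ ^ (k + 1) := mul_le_mul_of_nonneg_left h8 (abs_nonneg _)
          _ ≤ A := h4
    calc |∑ m ∈ S.filter fun m => ¬ ∑ e, m e = n, a m * c m|
        ≤ ∑ m ∈ S.filter (fun m => ¬ ∑ e, m e = n), |a m * c m| := abs_sum_le_sum_abs _ _
      _ ≤ ∑ _m ∈ S.filter (fun m => ¬ ∑ e, m e = n), A / 2 ^ (n + 1) / S.card :=
          sum_le_sum hterm
      _ = (S.filter (fun m => ¬ ∑ e, m e = n)).card * (A / 2 ^ (n + 1) / S.card) := by
          rw [sum_const, nsmul_eq_mul]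
      _ ≤ S.card * (A / 2 ^ (n + 1) / S.card) := by
          refine mul_le_mul_of_nonneg_right ?_ (by positivity)
          exact_mod_cast card_filter_le _ _
      _ = A / 2 ^ (n + 1) := by field_simp
  rw [hco, hsplit]
  set X := ∑ m ∈ S.filter fun m => ∑ e, m e = n, a m * ∏ e, ((h e : ℕ) : ℝ) ^ m e with hX
  set Y := ∑ m ∈ S.filter fun m => ¬ ∑ e, m e = n, a m * c m with hY
  have h1 : |X| ≤ |X + Y| + |Y| := by
    calc |X| = |(X + Y) - Y| := by ring_nf
      _ ≤ |X + Y| + |Y| := abs_sub _ _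
  have h2 : 2 ^ (n + 1) * |Y| ≤ A := by
    rw [le_div_iff₀ (by positivity)] at hrest
    linarith
  have h3 : (2 : ℝ) ^ (n + 1) = 2 * 2 ^ n := by rw [pow_succ]; ring
  have h4 : 2 * A ≤ 2 ^ (n + 1) * |X| := by rw [h3]; linarith
  have h5 : 2 ^ (n + 1) * |X| ≤ 2 ^ (n + 1) * (|X + Y| + |Y|) :=
    mul_le_mul_of_nonneg_left h1 (by positivity)
  linarith

/-- Anticoncentration, for a polynomial given by its coefficients. -/
theorem anti_coef {S : Finset (ι →₀ ℕ)} {a : (ι →₀ ℕ) → ℝ} {d R : ℕ} {B Λ : ℝ} (hB : 1 ≤ B)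
    (hd : ∀ m ∈ S, ∑ e, m e ≤ d) (hΛ : acC d * S.card * B ≤ Λ) (p : ι → ℝ)
    (hp : ∀ e, ∀ x : Fin R, |p e + ((x : ℕ) : ℝ)| ≤ B) {μ : ι →₀ ℕ} (hμ : μ ∈ S) :
    (univ.filter fun ν : ι → Fin R =>
      acC d * Λ ^ d * |∑ m ∈ S, a m * ∏ e, (p e + (((ν e : Fin R) : ℕ) : ℝ)) ^ m e| <
        |a μ| * Λ ^ (∑ e, μ e)).card * R ≤ d ^ 2 * R ^ Fintype.card ι := by
  classical
  have hcard : 1 ≤ S.card := card_pos.2 ⟨μ, hμ⟩
  have hacC : (2 : ℝ) ≤ acC d := by exact_mod_cast two_le_acC d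
  have hcard' : (1 : ℝ) ≤ S.card := by exact_mod_cast hcard
  have hΛ1 : 1 ≤ Λ := by
    calc (1 : ℝ) ≤ 2 * 1 * 1 := by norm_num
      _ ≤ acC d * S.card * B := by gcongr
      _ ≤ Λ := hΛ
  have hΛ0 : 0 < Λ := by linarith
  obtain ⟨m0, hm0, hmax⟩ := exists_max_image S (fun m => |a m| * Λ ^ (∑ e, m e)) ⟨μ, hμ⟩
  set n := ∑ e, m0 e with hn_def
  set A := |a m0| with hA_def
  have hn : n ≤ d := hd m0 hm0
  have hA0 : 0 ≤ A := abs_nonneg _
  set bad := univ.filter fun ν : ι → Fin R =>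
      acC d * Λ ^ d * |∑ m ∈ S, a m * ∏ e, (p e + (((ν e : Fin R) : ℕ) : ℝ)) ^ m e| <
        |a μ| * Λ ^ (∑ e, μ e) with hbad
  -- the values at bad points are small
  have hsmall : ∀ ν ∈ bad,
      acC d * |∑ m ∈ S, a m * ∏ e, (p e + (((ν e : Fin R) : ℕ) : ℝ)) ^ m e| < A := by
    intro ν hν
    rw [hbad, mem_filter] at hν
    have h1 := hν.2.trans_le (hmax μ hμ)
    have h2 : A * Λ ^ n ≤ A * Λ ^ d :=
      mul_le_mul_of_nonneg_left (pow_le_pow_right₀ hΛ1 hn) hA0
    have h3 : (acC d * |∑ m ∈ S, a m * ∏ e, (p e + (((ν e : Fin R) : ℕ) : ℝ)) ^ m e|) * Λ ^ d <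
        A * Λ ^ d := by
      calc _ = acC d * Λ ^ d *
            |∑ m ∈ S, a m * ∏ e, (p e + (((ν e : Fin R) : ℕ) : ℝ)) ^ m e| := by ring
        _ < A * Λ ^ n := h1
        _ ≤ _ := h2
    exact lt_of_mul_lt_mul_right h3 (by positivity)
  -- the direction
  obtain ⟨h, hhm, hdir⟩ := exists_direction (S.filter fun m => ∑ e, m e = n) a m0
    (by rw [mem_filter]; exact ⟨hm0, rfl⟩) (fun m' hm' => (mem_filter.1 hm').2)
  have hhd : ∀ e, h e ≤ d := fun e =>
    ((hhm e).trans (single_le_sum (fun i _ => Nat.zero_le (m0 i)) (mem_univ e))).trans hn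
  have hsumh : ∑ e, h e ≤ d := (sum_le_sum fun e _ => hhm e).trans hn
  have hlow : ∀ q : ι → ℝ, (∀ e, |q e| ≤ B) →
      A ≤ 2 ^ (n + 1) * |(lineP S a q fun e => (h e : ℝ)).coeff n| :=
    fun q hq => coef_low hB hd hΛ hcard hmax hn hA0 h hhd hdir q hq
  by_cases hh : ∃ e0, 1 ≤ h e0
  · obtain ⟨e0, h0⟩ := hh
    have hcl := count_lines (K := n) h e0 h0 bad (fun c T hT => by
      by_contra hcon
      push Not at hcon
      have hTne : T.Nonempty := card_pos.1 (by omega)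
      -- the values on the line
      let φ := lineP S a (fun e => p e + (c e : ℝ)) (fun e => (h e : ℝ))
      have hev : ∀ t ∈ T, |φ.eval (t : ℝ)| ≤ A / acC d := by
        intro t ht
        obtain ⟨ν, hν, hνe⟩ := hT t ht
        have h1 := hsmall ν hν
        rw [lineP_eval]
        have h2 : ∀ e, p e + (((ν e : Fin R) : ℕ) : ℝ) = p e + (c e : ℝ) + (h e : ℝ) * t := by
          intro e
          have h3 : ((((ν e : Fin R) : ℕ) : ℤ) : ℝ) = ((c e + t * h e : ℤ) : ℝ) := by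
            rw [hνe e]
          push_cast at h3
          rw [h3]; ring
        simp only [h2] at h1
        rw [le_div_iff₀ (by linarith), mul_comm]
        exact h1.le
      obtain ⟨ξ, hξ1, hξ2, hξ3⟩ := small_deriv_int n φ (A / acC d) (T.min' hTne) (T.max' hTne) T
        (by omega) (fun t ht => ⟨by exact_mod_cast T.min'_le t ht,
          by exact_mod_cast T.le_max' t ht, hev t ht⟩)
      rw [lineP_deriv] at hξ3
      have hq : ∀ e, |p e + (c e : ℝ) + (h e : ℝ) * ξ| ≤ B := by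
        intro e
        obtain ⟨ν1, _, hν1⟩ := hT _ (T.min'_mem hTne)
        obtain ⟨ν2, _, hν2⟩ := hT _ (T.max'_mem hTne)
        have h1 : ((((ν1 e : Fin R) : ℕ) : ℤ) : ℝ) =
            ((c e + T.min' hTne * h e : ℤ) : ℝ) := by rw [hν1 e]
        have h2 : ((((ν2 e : Fin R) : ℕ) : ℤ) : ℝ) =
            ((c e + T.max' hTne * h e : ℤ) : ℝ) := by rw [hν2 e]
        push_cast at h1 h2
        have h3 := hp e (ν1 e)
        have h4 := hp e (ν2 e)
        rw [h1] at h3
        rw [h2] at h4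
        rw [abs_le] at h3 h4 ⊢
        have h5 : (0 : ℝ) ≤ h e := by positivity
        have h6 : (T.min' hTne : ℝ) * h e ≤ ξ * h e := mul_le_mul_of_nonneg_right hξ1 h5
        have h7 : ξ * h e ≤ (T.max' hTne : ℝ) * h e := mul_le_mul_of_nonneg_right hξ2 h5
        constructor <;> linarith [h3.1, h3.2, h4.1, h4.2]
      have h1 := hlow _ hq
      rw [abs_mul, Nat.abs_cast] at hξ3
      have hfac : (0 : ℝ) < n.factorial := by exact_mod_cast Nat.factorial_pos n
      have h2 : |(lineP S a (fun e => p e + (c e : ℝ) + (h e : ℝ) * ξ)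
          fun e => (h e : ℝ)).coeff n| ≤ (n + 1) * (A / acC d) := by
        have h3 : (n.factorial : ℝ) * |(lineP S a (fun e => p e + (c e : ℝ) + (h e : ℝ) * ξ)
          fun e => (h e : ℝ)).coeff n| ≤ n.factorial * ((n + 1) * (A / acC d)) := by
          calc _ ≤ (n.factorial * (n + 1) : ℝ) * (A / acC d) := hξ3
            _ = _ := by ring
        exact le_of_mul_le_mul_left h3 hfac
      -- `A` is positive, since there are bad points
      have hA : 0 < A := by
        obtain ⟨t, ht⟩ := hTne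
        obtain ⟨ν, hν, _⟩ := hT t ht
        have h3 := hsmall ν hν
        have h4 : 0 ≤ acC d * |∑ m ∈ S, a m * ∏ e, (p e + (((ν e : Fin R) : ℕ) : ℝ)) ^ m e| := by
          positivity
        linarith
      have h4 : ((n + 1) * 2 ^ (n + 1) : ℝ) < acC d := by exact_mod_cast acC_gt d n hn
      have h5 : A ≤ 2 ^ (n + 1) * ((n + 1) * (A / acC d)) :=
        h1.trans (mul_le_mul_of_nonneg_left h2 (by positivity))
      have h6 : 2 ^ (n + 1) * ((n + 1) * (A / acC d)) < A := by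
        have h7 : 2 ^ (n + 1) * ((n + 1) * (A / acC d)) =
            ((n + 1) * 2 ^ (n + 1)) * A / acC d := by ring
        rw [h7, div_lt_iff₀ (by linarith)]
        calc ((n + 1) * 2 ^ (n + 1) : ℝ) * A < acC d * A := mul_lt_mul_of_pos_right h4 hA
          _ = A * acC d := by ring
      linarith)
    calc bad.card * R ≤ n * ((∑ e, h e) * R ^ Fintype.card ι) := hcl
      _ ≤ d * (d * R ^ Fintype.card ι) :=
          Nat.mul_le_mul hn (Nat.mul_le_mul_right _ hsumh)
      _ = d ^ 2 * R ^ Fintype.card ι := by ring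
  · -- direction zero: the value itself is large
    push Not at hh
    have hh0 : ∀ e, h e = 0 := fun e => by have := hh e; omega
    have hempty : bad = ∅ := by
      apply eq_empty_of_forall_notMem
      intro ν hν
      have h1 := hsmall ν hν
      have hA : 0 < A := by
        have h4 : 0 ≤ acC d * |∑ m ∈ S, a m * ∏ e, (p e + (((ν e : Fin R) : ℕ) : ℝ)) ^ m e| := by
          positivity
        linarith
      have hn0 : n = 0 := by
        by_contra hne
        have h2 : ∑ m' ∈ S.filter (fun m => ∑ e, m e = n), a m' * ∏ e, ((h e : ℕ) : ℝ) ^ m' e = 0 := by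
          refine sum_eq_zero fun m' hm' => ?_
          rw [mem_filter] at hm'
          obtain ⟨e, he⟩ : ∃ e, m' e ≠ 0 := by
            by_contra hc
            push Not at hc
            apply hne
            rw [← hm'.2]
            exact sum_eq_zero fun e _ => hc e
          rw [prod_eq_zero (mem_univ e), mul_zero]
          rw [hh0 e, Nat.cast_zero, zero_pow he]
        rw [h2, abs_zero, mul_zero] at hdir
        linarith
      have h2 := hlow (fun e => p e + (((ν e : Fin R) : ℕ) : ℝ)) (fun e => hp e (ν e))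
      rw [hn0] at h2
      have h3 : (lineP S a (fun e => p e + (((ν e : Fin R) : ℕ) : ℝ))
          fun e => (h e : ℝ)).coeff 0 =
          ∑ m ∈ S, a m * ∏ e, (p e + (((ν e : Fin R) : ℕ) : ℝ)) ^ m e := by
        rw [Polynomial.coeff_zero_eq_eval_zero, lineP_eval]
        simp
      rw [h3] at h2
      have h5 : (2 : ℝ) ^ (0 + 1) * |∑ m ∈ S, a m * ∏ e, (p e + (((ν e : Fin R) : ℕ) : ℝ)) ^ m e| ≤
          acC d * |∑ m ∈ S, a m * ∏ e, (p e + (((ν e : Fin R) : ℕ) : ℝ)) ^ m e| := by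
        refine mul_le_mul_of_nonneg_right ?_ (abs_nonneg _)
        rw [zero_add, pow_one]
        exact hacC
      linarith
    rw [hempty]
    simp

/-- Anticoncentration for a real polynomial of degree at most `d` at the points
`c i * (a i + ξ i)` with `ξ i` uniform in `Fin (N + 1)`. -/
theorem anti {d N : ℕ} {B Λ : ℝ} (p : MvPolynomial ι ℝ) (hd : p.totalDegree ≤ d)
    (c a : ι → ℝ) (hc : ∀ i, 0 ≤ c i) (hB : 1 ≤ B)
    (ha : ∀ i, ∀ x : Fin (N + 1), |a i + ((x : ℕ) : ℝ)| ≤ B)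
    (hΛ : acC d * p.support.card * B ≤ Λ) {μ : ι →₀ ℕ} (hμ : μ ∈ p.support) :
    (univ.filter fun ξ : ι → Fin (N + 1) =>
      acC d * Λ ^ d * |MvPolynomial.eval (fun i => c i * (a i + (((ξ i : Fin (N + 1)) : ℕ) : ℝ))) p| <
        |p.coeff μ| * (∏ i, c i ^ μ i) * Λ ^ (∑ i, μ i)).card * (N + 1) ≤
      d ^ 2 * Fintype.card (ι → Fin (N + 1)) := by
  have h1 := anti_coef (S := p.support) (a := fun m => p.coeff m * ∏ i, c i ^ m i) (d := d)
    (R := N + 1) hB (fun m hm => by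
      refine le_trans (le_of_eq ?_) ((MvPolynomial.le_totalDegree hm).trans hd)
      rw [Finsupp.sum_fintype _ _ (fun _ => rfl)]) hΛ a ha hμ
  have h2 : Fintype.card (ι → Fin (N + 1)) = (N + 1) ^ Fintype.card ι := by simp
  rw [h2]
  refine le_trans (Nat.mul_le_mul_right _ (card_le_card ?_)) h1
  intro ξ hξ
  rw [mem_filter] at hξ ⊢
  refine ⟨mem_univ _, ?_⟩
  have h3 : MvPolynomial.eval (fun i => c i * (a i + (((ξ i : Fin (N + 1)) : ℕ) : ℝ))) p =
      ∑ m ∈ p.support, (p.coeff m * ∏ i, c i ^ m i) *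
        ∏ e, (a e + (((ξ e : Fin (N + 1)) : ℕ) : ℝ)) ^ m e := by
    rw [MvPolynomial.eval_eq']
    refine sum_congr rfl fun m _ => ?_
    rw [mul_assoc, ← prod_mul_distrib]
    congr 1
    refine prod_congr rfl fun i _ => ?_
    rw [mul_pow]
  rw [← h3]
  have h4 : |p.coeff μ * ∏ i, c i ^ μ i| = |p.coeff μ| * ∏ i, c i ^ μ i := by
    rw [abs_mul, abs_of_nonneg (prod_nonneg fun i _ => pow_nonneg (hc i) _)]
  rw [h4]
  exact hξ.2

end Pool.Agent.Helper22.PL
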