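import Mathlib

/-!
# Anticoncentration of polynomials on grids, part 1: one variable

If a real polynomial is small at `n + 1` integers of an interval then its `n`-th derivative is
small somewhere in the interval.
-/

set_option autoImplicit false

namespace Pool.Agent.Helper22.PL

open Finset

lemma rolle_iter (n : ℕ) : ∀ (φ : Polynomial ℝ) (a b : ℝ) (t : ℕ → ℝ),
    (∀ j ≤ n, a ≤ t j ∧ t j ≤ b ∧ φ.eval (t j) = 0) → (∀ j < n, t j < t (j + 1)) →
    ∃ ξ, a ≤ ξ ∧ ξ ≤ b ∧ ((Polynomial.derivative^[n]) φ).eval ξ = 0 := by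
  induction n with
  | zero =>
    intro φ a b t h _
    obtain ⟨h1, h2, h3⟩ := h 0 le_rfl
    exact ⟨t 0, h1, h2, by simpa using h3⟩
  | succ n ih =>
    intro φ a b t h hg
    have hex : ∀ j : ℕ, ∃ ξ : ℝ, j ≤ n → t j < ξ ∧ ξ < t (j + 1) ∧
        (Polynomial.derivative φ).eval ξ = 0 := by
      intro j
      by_cases hj : j ≤ n
      · obtain ⟨ξ, hξ, he⟩ := exists_deriv_eq_zero (f := fun x => φ.eval x) (hg j (by omega))
          φ.continuous.continuousOn
          (by
            have h1 := (h j (by omega)).2.2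
            have h2 := (h (j + 1) (by omega)).2.2
            rw [h1, h2])
        rw [Polynomial.deriv] at he
        exact ⟨ξ, fun _ => ⟨hξ.1, hξ.2, he⟩⟩
      · exact ⟨0, fun hc => absurd hc hj⟩
    choose ξ hξ using hex
    obtain ⟨z, hz1, hz2, hz3⟩ := ih (Polynomial.derivative φ) a b ξ
      (fun j hj => by
        obtain ⟨h1, h2, h3⟩ := hξ j hj
        have h4 := (h j (by omega)).1
        have h5 := (h (j + 1) (by omega)).2.1
        exact ⟨by linarith, by linarith, h3⟩)
      (fun j hj => by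
        obtain ⟨h1, h2, h3⟩ := hξ j (by omega)
        obtain ⟨h4, h5, h6⟩ := hξ (j + 1) (by omega)
        linarith)
    refine ⟨z, hz1, hz2, ?_⟩
    rw [Function.iterate_succ_apply]
    exact hz3

lemma small_deriv_int (n : ℕ) (φ : Polynomial ℝ) (δ a b : ℝ) (T : Finset ℤ)
    (hT : n + 1 ≤ T.card) (h : ∀ t ∈ T, a ≤ (t : ℝ) ∧ (t : ℝ) ≤ b ∧ |φ.eval (t : ℝ)| ≤ δ) :
    ∃ ξ, a ≤ ξ ∧ ξ ≤ b ∧
      |((Polynomial.derivative^[n]) φ).eval ξ| ≤ (n.factorial * (n + 1) : ℝ) * δ := by
  classical
  let f := T.orderEmbOfCardLe hT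
  let v : Fin (n + 1) → ℝ := fun j => ((f j : ℤ) : ℝ)
  have hv : Function.Injective v := by
    intro i j hij
    have h1 : ((f i : ℤ) : ℝ) = ((f j : ℤ) : ℝ) := hij
    exact f.injective (by exact_mod_cast h1)
  have hvs : Set.InjOn v (↑(univ : Finset (Fin (n + 1))) : Set (Fin (n + 1))) := hv.injOn
  let r : Fin (n + 1) → ℝ := fun j => φ.eval (v j)
  let P := Lagrange.interpolate univ v r
  have hcard : (univ : Finset (Fin (n + 1))).card = n + 1 := by simp
  have hPdeg : P.degree < (n + 1 : ℕ) := by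
    have := Lagrange.degree_interpolate_lt r hvs
    rwa [hcard] at this
  have hPnat : P.natDegree ≤ n := by
    by_cases hP0 : P = 0
    · rw [hP0]; simp
    · have := (Polynomial.natDegree_lt_iff_degree_lt hP0).2 hPdeg
      omega
  have hPev : ∀ j, P.eval (v j) = φ.eval (v j) := fun j =>
    Lagrange.eval_interpolate_at_node r hvs (mem_univ j)
  -- the leading coefficient of the interpolation polynomial is small
  have hδ : ∀ j, |φ.eval (v j)| ≤ δ := fun j => (h _ (T.orderEmbOfCardLe_mem hT j)).2.2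
  have hδ0 : 0 ≤ δ := (abs_nonneg _).trans (hδ 0)
  have hlead : |P.coeff n| ≤ (n + 1) * δ := by
    have h1 := Lagrange.coeff_eq_sum hvs (P := P) (by rw [hcard]; exact hPdeg)
    rw [hcard, Nat.add_sub_cancel] at h1
    rw [h1]
    calc |∑ i, P.eval (v i) / ∏ j ∈ univ.erase i, (v i - v j)|
        ≤ ∑ i, |P.eval (v i) / ∏ j ∈ univ.erase i, (v i - v j)| := abs_sum_le_sum_abs _ _
      _ ≤ ∑ _i : Fin (n + 1), δ := by
          refine sum_le_sum fun i _ => ?_
          rw [abs_div, hPev]
          have h2 : (1 : ℝ) ≤ |∏ j ∈ univ.erase i, (v i - v j)| := by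
            rw [abs_prod]
            calc (1 : ℝ) = ∏ _j ∈ univ.erase i, (1 : ℝ) := by rw [prod_const_one]
              _ ≤ ∏ j ∈ univ.erase i, |v i - v j| := by
                  refine prod_le_prod (fun _ _ => zero_le_one) fun j hj => ?_
                  have hne : f i ≠ f j := fun hc => (ne_of_mem_erase hj) (f.injective hc).symm
                  have h3 : (1 : ℤ) ≤ |f i - f j| := Int.one_le_abs (sub_ne_zero.2 hne)
                  have h4 : ((1 : ℤ) : ℝ) ≤ ((|f i - f j| : ℤ) : ℝ) := by exact_mod_cast h3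
                  push_cast at h4
                  exact h4
          rw [div_le_iff₀ (by linarith)]
          calc |φ.eval (v i)| ≤ δ := hδ i
            _ ≤ δ * |∏ j ∈ univ.erase i, (v i - v j)| := le_mul_of_one_le_right hδ0 h2
      _ = (n + 1) * δ := by rw [sum_const, hcard, nsmul_eq_mul]; push_cast; ring
  -- Rolle
  obtain ⟨ξ, h1, h2, h3⟩ := rolle_iter n (φ - P) a b
    (fun j => if hj : j < n + 1 then v ⟨j, hj⟩ else 0)
    (fun j hj => by
      have hj' : j < n + 1 := by omega
      simp only [hj', dif_pos]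
      obtain ⟨h4, h5, _⟩ := h _ (T.orderEmbOfCardLe_mem hT ⟨j, hj'⟩)
      refine ⟨h4, h5, ?_⟩
      rw [Polynomial.eval_sub, hPev, sub_self])
    (fun j hj => by
      have hj0 : j < n + 1 := by omega
      have hj1 : j + 1 < n + 1 := by omega
      simp only [hj0, hj1, dif_pos]
      have h4 : f ⟨j, hj0⟩ < f ⟨j + 1, hj1⟩ := f.strictMono (by simp [Fin.lt_def])
      have h5 : ((f ⟨j, hj0⟩ : ℤ) : ℝ) < ((f ⟨j + 1, hj1⟩ : ℤ) : ℝ) := by exact_mod_cast h4
      exact h5)
  refine ⟨ξ, h1, h2, ?_⟩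
  rw [Polynomial.iterate_derivative_sub, Polynomial.eval_sub, sub_eq_zero] at h3
  rw [h3]
  have h4 : (Polynomial.derivative^[n]) P = Polynomial.C ((n.factorial : ℝ) * P.coeff n) := by
    ext i
    rw [Polynomial.coeff_iterate_derivative, Polynomial.coeff_C]
    split_ifs with hi
    · subst hi
      rw [zero_add, Nat.descFactorial_self, nsmul_eq_mul]
    · rw [Polynomial.coeff_eq_zero_of_natDegree_lt (by omega), smul_zero]
  rw [h4, Polynomial.eval_C, abs_mul, Nat.abs_cast, mul_assoc]
  exact mul_le_mul_of_nonneg_left hlead (by positivity)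

end Pool.Agent.Helper22.PL
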